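import Mathlib

/-! Parseval identity for absolutely convergent power series on the circle; copied from
`Pool/Agent/Helper772/MV/LP.lean` (helper772). -/
open MeasureTheory Metric Set
open scoped ENNReal Real

namespace H781

theorem intexp_10059 (k : ℤ) :
    ∫ θ in (-π)..π, Complex.exp (k * θ * Complex.I) = if k = 0 then 2 * (π : ℂ) else 0 := by
  by_cases hk : k = 0
  · subst hk
    simp
    ring
  · rw [if_neg hk]
    have hc : (k : ℂ) * Complex.I ≠ 0 := by
      apply mul_ne_zero _ Complex.I_ne_zero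
      exact_mod_cast hk
    have h1 : ∀ θ : ℝ, Complex.exp (k * θ * Complex.I) = Complex.exp ((k * Complex.I) * θ) := by
      intro θ
      congr 1
      ring
    simp_rw [h1]
    rw [integral_exp_mul_complex hc]
    have h2 : Complex.exp (k * Complex.I * (π : ℝ)) =
        Complex.exp (k * Complex.I * ((-π : ℝ) : ℂ)) * Complex.exp (k * (2 * π * Complex.I)) := by
      rw [← Complex.exp_add]
      congr 1
      push_cast
      ring
    rw [h2, Complex.exp_int_mul_two_pi_mul_I, mul_one, sub_self, zero_div]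

theorem bnd_10059 (a : ℂ) (k : ℤ) (θ : ℝ) : ‖a * Complex.exp (k * θ * Complex.I)‖ = ‖a‖ := by
  have h1 : (k : ℂ) * θ * Complex.I = ((k * θ : ℝ) : ℂ) * Complex.I := by push_cast; ring
  rw [norm_mul, h1, Complex.norm_exp_ofReal_mul_I, mul_one]

theorem pars_10059 (a : ℕ → ℂ) (ha : Summable fun n => ‖a n‖) (F : ℝ → ℂ)
    (hF : ∀ θ : ℝ, HasSum (fun n : ℕ => a n * Complex.exp ((n : ℤ) * θ * Complex.I)) (F θ)) :
    Continuous F ∧ HasSum (fun n => 2 * π * ‖a n‖ ^ 2) (∫ θ in (-π)..π, ‖F θ‖ ^ 2) := by
  have hFt : F = fun θ : ℝ => ∑' n, a n * Complex.exp ((n : ℤ) * θ * Complex.I) := by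
    funext θ
    exact (hF θ).tsum_eq.symm
  have hFc : Continuous F := by
    rw [hFt]
    refine continuous_tsum (fun n => by fun_prop) ha ?_
    intro n θ
    exact (bnd_10059 _ _ _).le
  refine ⟨hFc, ?_⟩
  -- Fourier coefficients
  have h1 : ∀ n : ℕ, ∫ θ in (-π)..π, F θ * Complex.exp ((-(n : ℤ) : ℤ) * θ * Complex.I) =
      2 * π * a n := by
    intro n
    have h2 : HasSum (fun m : ℕ => ∫ θ in (-π)..π, a m * Complex.exp (((m : ℤ) - n : ℤ) * θ * Complex.I))
        (∫ θ in (-π)..π, F θ * Complex.exp ((-(n : ℤ) : ℤ) * θ * Complex.I)) := by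
      apply intervalIntegral.hasSum_integral_of_dominated_convergence (fun m _ => ‖a m‖)
      · intro m
        exact (by fun_prop : Continuous fun θ : ℝ =>
          a m * Complex.exp (((m : ℤ) - n : ℤ) * θ * Complex.I)).aestronglyMeasurable
      · intro m
        exact Filter.Eventually.of_forall fun θ _ => (bnd_10059 _ _ _).le
      · exact Filter.Eventually.of_forall fun θ _ => ha
      · exact intervalIntegrable_const
      · refine Filter.Eventually.of_forall fun θ _ => ?_
        have h3 := (hF θ).mul_right (Complex.exp ((-(n : ℤ) : ℤ) * θ * Complex.I))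
        refine h3.congr_fun ?_
        intro m
        rw [mul_assoc (a m), ← Complex.exp_add]
        congr 2
        push_cast
        ring
    have h4 : HasSum (fun m : ℕ => ∫ θ in (-π)..π, a m * Complex.exp (((m : ℤ) - n : ℤ) * θ * Complex.I))
        (2 * π * a n) := by
      have h5 : ∀ m : ℕ, ∫ θ in (-π)..π, a m * Complex.exp (((m : ℤ) - n : ℤ) * θ * Complex.I) =
          if m = n then 2 * π * a n else 0 := by
        intro m
        rw [intervalIntegral.integral_const_mul, intexp_10059]
        by_cases h : m = n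
        · subst h
          simp
          ring
        · rw [if_neg h, if_neg (by omega), mul_zero]
      simp_rw [h5]
      exact hasSum_ite_eq n _
    exact h2.unique h4
  have hFb : ∀ θ, ‖F θ‖ ≤ ∑' m, ‖a m‖ := by
    intro θ
    rw [← (hF θ).tsum_eq]
    have h6 : ∀ n : ℕ, ‖a n * Complex.exp ((n : ℤ) * θ * Complex.I)‖ = ‖a n‖ :=
      fun n => bnd_10059 _ _ _
    calc ‖∑' n : ℕ, a n * Complex.exp ((n : ℤ) * θ * Complex.I)‖
        ≤ ∑' n : ℕ, ‖a n * Complex.exp ((n : ℤ) * θ * Complex.I)‖ :=
          norm_tsum_le_tsum_norm (by simp_rw [h6]; exact ha)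
      _ = _ := by simp_rw [h6]
  have h7 : HasSum (fun n : ℕ => ∫ θ in (-π)..π, (starRingEnd ℂ) (a n) *
      (F θ * Complex.exp ((-(n : ℤ) : ℤ) * θ * Complex.I)))
      (∫ θ in (-π)..π, ((‖F θ‖ ^ 2 : ℝ) : ℂ)) := by
    apply intervalIntegral.hasSum_integral_of_dominated_convergence
      (fun n _ => ‖a n‖ * ∑' m, ‖a m‖)
    · intro m
      exact (by fun_prop : Continuous fun θ : ℝ => (starRingEnd ℂ) (a m) *
        (F θ * Complex.exp ((-(m : ℤ) : ℤ) * θ * Complex.I))).aestronglyMeasurable
    · intro n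
      refine Filter.Eventually.of_forall fun θ _ => ?_
      rw [norm_mul, bnd_10059, RCLike.norm_conj]
      exact mul_le_mul_of_nonneg_left (hFb θ) (norm_nonneg _)
    · exact Filter.Eventually.of_forall fun θ _ => ha.mul_right _
    · exact intervalIntegrable_const
    · refine Filter.Eventually.of_forall fun θ _ => ?_
      have h8 : HasSum (fun n : ℕ => (starRingEnd ℂ) (a n * Complex.exp ((n : ℤ) * θ * Complex.I)))
          ((starRingEnd ℂ) (F θ)) := (Complex.hasSum_conj').2 (hF θ)
      have h9 := h8.mul_right (F θ)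
      rw [Complex.conj_mul'] at h9
      push_cast
      refine h9.congr_fun ?_
      intro n
      rw [map_mul, ← Complex.exp_conj]
      have h10 : (starRingEnd ℂ) (((n : ℤ) : ℂ) * θ * Complex.I) = (-(n : ℤ) : ℤ) * θ * Complex.I := by
        rw [map_mul, map_mul, Complex.conj_I, Complex.conj_ofReal]
        simp
      rw [h10]
      push_cast
      ring_nf
  have h11 : ∀ n : ℕ, ∫ θ in (-π)..π, (starRingEnd ℂ) (a n) *
      (F θ * Complex.exp ((-(n : ℤ) : ℤ) * θ * Complex.I)) = ((2 * π * ‖a n‖ ^ 2 : ℝ) : ℂ) := by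
    intro n
    rw [intervalIntegral.integral_const_mul, h1]
    have h12 : (starRingEnd ℂ) (a n) * (2 * π * a n) = 2 * π * ((starRingEnd ℂ) (a n) * a n) := by ring
    rw [h12, Complex.conj_mul']
    push_cast
    ring
  simp_rw [h11] at h7
  rw [intervalIntegral.integral_ofReal] at h7
  exact Complex.hasSum_ofReal.1 h7

end H781
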